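import Pool.Agent.ZPK.StmtsA
import Pool.Agent.Helper3_ZP3.PPT0
import Pool.Agent.Helper51_ZP3.Near

/-!
Squad ZPK, row LRG: large primes for a branch.
-/

set_option autoImplicit false

namespace Pool.Agent.ZPK.H64

open Polynomial Pool.Agent.ZPT Pool.Agent.ZP3

theorem norm_closure {K : Type} [NormedField K] [IsUltrametricDist K] (ι : Qb →+* K)
    (S : Finset Qb) (hS : ∀ g ∈ S, ‖ι g‖ ≤ 1) {x : Qb}
    (hx : x ∈ Subring.closure (S : Set Qb)) : ‖ι x‖ ≤ 1 := by
  induction hx using Subring.closure_induction with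
  | mem y hy => exact hS y hy
  | zero => rw [map_zero, norm_zero]; exact zero_le_one
  | one => rw [map_one, norm_one]
  | add y z _ _ h1 h2 =>
    rw [map_add]
    exact (IsUltrametricDist.norm_add_le_max _ _).trans (max_le h1 h2)
  | neg y _ h1 => rw [map_neg, norm_neg]; exact h1
  | mul y z _ _ h1 h2 =>
    rw [map_mul, norm_mul]
    exact mul_le_one₀ h1 (norm_nonneg _) h2

/-- Row LRG. -/
theorem lrg (ura : URAStmt) (evf : EVFStmt) : LrgStmt := by
  classical
  intro n b e f hB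
  obtain ⟨S, hS⟩ := Pool.Agent.ZP3.H3.common (Finset.univ.image f) (by
    intro g hg
    obtain ⟨i, _, rfl⟩ := Finset.mem_image.1 hg
    exact hB.fg i)
  have hS' : ∀ i m, PowerSeries.coeff m (f i) ∈ Subring.closure (S : Set Qb) := fun i m =>
    hS (f i) (Finset.mem_image_of_mem f (Finset.mem_univ i)) m
  obtain ⟨p₀, hp₀⟩ := ura (S ∪ Finset.univ.image fun i => PowerSeries.constantCoeff (f i))
  refine ⟨S, p₀, ?_, ?_⟩
  · intro i m
    have h1 : Subring.closure (S : Set Qb) ≤ (Subfield.closure (S : Set Qb)).toSubring :=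
      Subring.closure_le.2 Subfield.subset_closure
    exact h1 (hS' i m)
  · intro p hp hpp K _ _ _ _ hK ι
    have hn : ∀ g ∈ S, ‖ι g‖ ≤ 1 := fun g hg =>
      (hp₀ p hp hpp K hK ι g (Finset.mem_union_left _ hg)).1.1
    have h0 : ∀ i, 1 ≤ e i → ‖cf ι (f i) 0‖ = 1 := by
      intro i hi
      have h1 := (hp₀ p hp hpp K hK ι (PowerSeries.constantCoeff (f i))
        (Finset.mem_union_right _ (Finset.mem_image_of_mem
          (fun i => PowerSeries.constantCoeff (f i)) (Finset.mem_univ i)))).2 (hB.f0 i hi)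
      unfold cf
      rw [PowerSeries.coeff_zero_eq_constantCoeff_apply]
      exact h1
    refine ⟨fun i m => norm_closure ι S hn (hS' i m), h0, ?_⟩
    intro t i ht
    have h1 := evf K ι S hn t ht (f i) (f i) (hS' i) (hS' i)
    have h2 : ‖evK ι (f i) t - cf ι (f i) 0‖ ≤ ‖t‖ := by
      unfold cf
      rw [PowerSeries.coeff_zero_eq_constantCoeff_apply]
      exact h1.2.2.2.2.2.2.1
    exact ⟨h1.2.2.2.2.2.2.2, h2, fun hi =>
      Pool.Agent.ZP3.H51.norm_one_of_near (h0 i hi) (h2.trans_lt ht)⟩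

end Pool.Agent.ZPK.H64
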